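import Mathlib

set_option autoImplicit false
set_option linter.unusedSectionVars false

namespace Pool.Agent.Results.MP_9feecb_co.FrustratedCycles

open Finset

section Count

variable {I V : Type} [Fintype I] [DecidableEq I] [Fintype V] [DecidableEq V]

/-- embeddings with prescribed values on `S` -/
def extEquiv (S : Finset I) (w : I → V) (hw : ∀ i ∈ S, ∀ j ∈ S, w i = w j → i = j) :
    {v : I ↪ V // ∀ i ∈ S, v i = w i} ≃ ({i // i ∉ S} ↪ {x // x ∉ S.image w}) where
  toFun v := ⟨fun i => ⟨v.1 i.1, by
      intro h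
      obtain ⟨j, hj, hj2⟩ := Finset.mem_image.mp h
      rw [← v.2 j hj] at hj2
      have := v.1.injective hj2
      exact i.2 (this ▸ hj)⟩, by
      intro i j hij
      simp only [Subtype.mk.injEq] at hij
      exact Subtype.ext (v.1.injective hij)⟩
  invFun u := ⟨⟨fun i => if h : i ∈ S then w i else (u ⟨i, h⟩).1, by
      intro i j hij
      by_cases hi : i ∈ S <;> by_cases hj : j ∈ S
      · simp only [hi, hj, dif_pos] at hij
        exact hw i hi j hj hij
      · simp only [hi, hj, dif_pos, dif_neg, not_false_eq_true] at hij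
        exact absurd (Finset.mem_image.mpr ⟨i, hi, hij⟩) (u ⟨j, hj⟩).2
      · simp only [hi, hj, dif_pos, dif_neg, not_false_eq_true] at hij
        exact absurd (Finset.mem_image.mpr ⟨j, hj, hij.symm⟩) (u ⟨i, hi⟩).2
      · simp only [hi, hj, dif_neg, not_false_eq_true] at hij
        have := u.injective (Subtype.ext hij)
        exact congrArg Subtype.val this⟩, by
      intro i hi
      change (if h : i ∈ S then w i else (u ⟨i, h⟩).1) = w i
      rw [dif_pos hi]⟩
  left_inv v := by
    apply Subtype.ext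
    ext i
    change (if h : i ∈ S then w i else v.1 i) = v.1 i
    by_cases h : i ∈ S
    · rw [dif_pos h, v.2 i h]
    · rw [dif_neg h]
  right_inv u := by
    ext i
    change (if h : i.1 ∈ S then w i.1 else (u ⟨i.1, h⟩).1) = (u i).1
    rw [dif_neg i.2]

theorem card_ext (S : Finset I) (w : I → V) (hw : ∀ i ∈ S, ∀ j ∈ S, w i = w j → i = j) :
    (univ.filter fun v : I ↪ V => ∀ i ∈ S, v i = w i).card =
      (Fintype.card V - S.card).descFactorial (Fintype.card I - S.card) := by
  rw [← Fintype.card_subtype, Fintype.card_congr (extEquiv S w hw), Fintype.card_embedding_eq]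
  congr 1
  · have : Fintype.card {x // x ∉ S.image w} = Fintype.card V - (S.image w).card := by
      rw [Fintype.card_subtype_compl, Fintype.card_coe]
    rw [this, Finset.card_image_of_injOn]
    intro i hi j hj
    exact hw i hi j hj
  · rw [Fintype.card_subtype_compl, Fintype.card_coe]

/-- prescribing two values -/
theorem card_ext2 {p q : I} (hpq : p ≠ q) {a b : V} (hab : a ≠ b) :
    (univ.filter fun v : I ↪ V => v p = a ∧ v q = b).card =
      (Fintype.card V - 2).descFactorial (Fintype.card I - 2) := by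
  obtain ⟨w, hwp, hwq⟩ : ∃ w : I → V, w p = a ∧ w q = b :=
    ⟨fun i => if i = p then a else b, if_pos rfl, if_neg hpq.symm⟩
  have := card_ext (V := V) {p, q} w (by
    intro i hi j hj h
    simp only [mem_insert, mem_singleton] at hi hj
    rcases hi with rfl | rfl <;> rcases hj with rfl | rfl <;> simp only [hwp, hwq] at h <;>
      first | rfl | exact absurd h hab | exact absurd h.symm hab)
  rw [Finset.card_pair hpq] at this
  rw [← this]
  congr 1
  ext v
  simp only [mem_filter, mem_univ, true_and, mem_insert, mem_singleton, forall_eq_or_imp, forall_eq,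
    hwp, hwq]

/-- prescribing three values -/
theorem card_ext3 {p q r : I} (hpq : p ≠ q) (hpr : p ≠ r) (hqr : q ≠ r) {a b c : V}
    (hab : a ≠ b) (hac : a ≠ c) (hbc : b ≠ c) :
    (univ.filter fun v : I ↪ V => v p = a ∧ v q = b ∧ v r = c).card =
      (Fintype.card V - 3).descFactorial (Fintype.card I - 3) := by
  obtain ⟨w, hwp, hwq, hwr⟩ : ∃ w : I → V, w p = a ∧ w q = b ∧ w r = c :=
    ⟨fun i => if i = p then a else if i = q then b else c, if_pos rfl,
      by simp [hpq.symm], by simp [hpr.symm, hqr.symm]⟩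
  have := card_ext (V := V) {p, q, r} w (by
    intro i hi j hj h
    simp only [mem_insert, mem_singleton] at hi hj
    rcases hi with rfl | rfl | rfl <;> rcases hj with rfl | rfl | rfl <;>
      simp only [hwp, hwq, hwr] at h <;>
      first | rfl | exact absurd h hab | exact absurd h.symm hab | exact absurd h hac |
        exact absurd h.symm hac | exact absurd h hbc | exact absurd h.symm hbc)
  have hc : ({p, q, r} : Finset I).card = 3 := Finset.card_eq_three.mpr ⟨p, q, r, hpq, hpr, hqr, rfl⟩
  rw [hc] at this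
  rw [← this]
  congr 1
  ext v
  simp only [mem_filter, mem_univ, true_and, mem_insert, mem_singleton, forall_eq_or_imp, forall_eq,
    hwp, hwq, hwr]

/-- prescribing four values -/
theorem card_ext4 {p q r s : I} (hpq : p ≠ q) (hpr : p ≠ r) (hps : p ≠ s) (hqr : q ≠ r) (hqs : q ≠ s)
    (hrs : r ≠ s) {a b c d : V}
    (hab : a ≠ b) (hac : a ≠ c) (had : a ≠ d) (hbc : b ≠ c) (hbd : b ≠ d) (hcd : c ≠ d) :
    (univ.filter fun v : I ↪ V => v p = a ∧ v q = b ∧ v r = c ∧ v s = d).card =
      (Fintype.card V - 4).descFactorial (Fintype.card I - 4) := by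
  obtain ⟨w, hwp, hwq, hwr, hws⟩ : ∃ w : I → V, w p = a ∧ w q = b ∧ w r = c ∧ w s = d :=
    ⟨fun i => if i = p then a else if i = q then b else if i = r then c else d, if_pos rfl,
      by simp [hpq.symm], by simp [hpr.symm, hqr.symm], by simp [hps.symm, hqs.symm, hrs.symm]⟩
  have := card_ext (V := V) {p, q, r, s} w (by
    intro i hi j hj h
    simp only [mem_insert, mem_singleton] at hi hj
    rcases hi with rfl | rfl | rfl | rfl <;> rcases hj with rfl | rfl | rfl | rfl <;>
      simp only [hwp, hwq, hwr, hws] at h <;>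
      first | rfl | exact absurd h hab | exact absurd h.symm hab | exact absurd h hac |
        exact absurd h.symm hac | exact absurd h hbc | exact absurd h.symm hbc |
        exact absurd h had | exact absurd h.symm had | exact absurd h hbd | exact absurd h.symm hbd |
        exact absurd h hcd | exact absurd h.symm hcd)
  have hc : ({p, q, r, s} : Finset I).card = 4 := by
    rw [Finset.card_insert_of_notMem, Finset.card_insert_of_notMem, Finset.card_pair hrs]
    · simp [hqr, hqs]
    · simp [hpq, hpr, hps]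
  rw [hc] at this
  rw [← this]
  congr 1
  ext v
  simp only [mem_filter, mem_univ, true_and, mem_insert, mem_singleton, forall_eq_or_imp, forall_eq,
    hwp, hwq, hwr, hws]

end Count

/-! ### Definitions -/

/-- number of frustrated `k`-cycles, counted as sequences `(v_i)_{i mod k}` of distinct vertices with an
odd number of indices `i` such that `v_i v_{i+1}` is an edge -/
noncomputable def fr (k : ℕ) {V : Type} (G : SimpleGraph V) : ℕ :=
  {v : ZMod k → V | Function.Injective v ∧ Odd {i : ZMod k | G.Adj (v i) (v (i + 1))}.ncard}.ncard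

/-- the `s`-star on `n` vertices: the vertex `0` is joined to `1, …, s`, all other vertices are
isolated -/
def star (n s : ℕ) : SimpleGraph (Fin n) where
  Adj x y := (x.val = 0 ∧ 1 ≤ y.val ∧ y.val ≤ s) ∨ (y.val = 0 ∧ 1 ≤ x.val ∧ x.val ≤ s)
  symm := ⟨fun _ _ h => h.symm⟩
  loopless := ⟨fun _ h => by rcases h with h | h <;> omega⟩

/-- complete bipartite graphs, one part may be empty -/
def IsCompleteBipartite {V : Type} (H : SimpleGraph V) : Prop :=
  ∃ A : Set V, ∀ x y, H.Adj x y ↔ (x ∈ A ∧ y ∉ A) ∨ (x ∉ A ∧ y ∈ A)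

/-- `G` differs from some complete bipartite graph on its vertex set in at most `t` pairs -/
def WithinFlips {V : Type} (t : ℕ) (G : SimpleGraph V) : Prop :=
  ∃ H : SimpleGraph V, IsCompleteBipartite H ∧ (symmDiff G.edgeSet H.edgeSet).ncard ≤ t

/-! ### Positions on the cycle -/

section Pos

variable {k : ℕ}

theorem one_ne (hk : 3 ≤ k) : (1 : ZMod k) ≠ 0 := by
  intro h
  have : ((1 : ℕ) : ZMod k) = 0 := by simpa using h
  rw [ZMod.natCast_eq_zero_iff] at this
  have := Nat.le_of_dvd (by norm_num) this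
  omega

theorem two_ne (hk : 3 ≤ k) : (1 : ZMod k) + 1 ≠ 0 := by
  intro h
  have : ((2 : ℕ) : ZMod k) = 0 := by
    push_cast
    rw [← h]; norm_num
  rw [ZMod.natCast_eq_zero_iff] at this
  have := Nat.le_of_dvd (by norm_num) this
  omega

theorem succ_ne (hk : 3 ≤ k) (i : ZMod k) : i + 1 ≠ i := by
  intro h
  exact one_ne hk (by linear_combination h)

theorem pred_ne (hk : 3 ≤ k) (i : ZMod k) : i - 1 ≠ i := by
  intro h
  exact one_ne hk (by linear_combination -h)

theorem succ2_ne (hk : 3 ≤ k) (i : ZMod k) : i + 1 + 1 ≠ i := by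
  intro h
  exact two_ne hk (by linear_combination h)

theorem pred_ne_succ (hk : 3 ≤ k) (i : ZMod k) : i - 1 ≠ i + 1 := by
  intro h
  exact two_ne hk (by linear_combination -h)

end Pos

section Local

variable {k : ℕ} [NeZero k] {V : Type} [Fintype V] [DecidableEq V]

theorem bad_b (hk : 3 ≤ k) (i : ZMod k) {a b d : V} (hab : a ≠ b) (hda : d ≠ a) (hdb : d ≠ b) :
    (univ.filter fun v : ZMod k ↪ V => v i = a ∧ v (i + 1) = b ∧
      ∃ j, j ≠ i ∧ s(v j, v (j + 1)) = s(b, d)).card ≤
      (Fintype.card V - 3).descFactorial (k - 3) := by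
  have h := card_ext3 (V := V) (succ_ne hk i).symm (succ2_ne hk i).symm (succ_ne hk (i + 1)).symm
    hab hda.symm hdb.symm
  rw [ZMod.card] at h
  rw [← h]
  apply Finset.card_le_card
  intro v hv
  simp only [mem_filter, mem_univ, true_and] at hv ⊢
  obtain ⟨h1, h2, j, hj, hs⟩ := hv
  refine ⟨h1, h2, ?_⟩
  rw [Sym2.eq_iff] at hs
  rcases hs with ⟨h3, h4⟩ | ⟨h3, h4⟩
  · have : j = i + 1 := v.injective (h3.trans h2.symm)
    rw [← this]; exact h4
  · have : j + 1 = i + 1 := v.injective (h4.trans h2.symm)
    exact absurd (add_right_cancel this) hj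

theorem bad_a (hk : 3 ≤ k) (i : ZMod k) {a b d : V} (hab : a ≠ b) (hda : d ≠ a) (hdb : d ≠ b) :
    (univ.filter fun v : ZMod k ↪ V => v i = a ∧ v (i + 1) = b ∧
      ∃ j, j ≠ i ∧ s(v j, v (j + 1)) = s(a, d)).card ≤
      (Fintype.card V - 3).descFactorial (k - 3) := by
  have h := card_ext3 (V := V) (succ_ne hk i).symm (pred_ne hk i).symm (pred_ne_succ hk i).symm
    hab hda.symm hdb.symm
  rw [ZMod.card] at h
  rw [← h]
  apply Finset.card_le_card
  intro v hv
  simp only [mem_filter, mem_univ, true_and] at hv ⊢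
  obtain ⟨h1, h2, j, hj, hs⟩ := hv
  refine ⟨h1, h2, ?_⟩
  rw [Sym2.eq_iff] at hs
  rcases hs with ⟨h3, h4⟩ | ⟨h3, h4⟩
  · have : j = i := v.injective (h3.trans h1.symm)
    exact absurd this hj
  · have : j + 1 = i := v.injective (h4.trans h1.symm)
    have : i - 1 = j := by rw [← this]; ring
    rw [this]; exact h3

theorem bad_disj (hk : 3 ≤ k) (hn : 2 * (k - 3) ≤ Fintype.card V - 3) (i : ZMod k) {a b c d : V}
    (hab : a ≠ b) (hac : a ≠ c) (had : a ≠ d) (hbc : b ≠ c) (hbd : b ≠ d) (hcd : c ≠ d) :
    (univ.filter fun v : ZMod k ↪ V => v i = a ∧ v (i + 1) = b ∧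
      ∃ j, j ≠ i ∧ s(v j, v (j + 1)) = s(c, d)).card ≤
      (Fintype.card V - 3).descFactorial (k - 3) := by
  set T : Finset (ZMod k) := univ \ {i - 1, i, i + 1} with hT
  have hTc : T.card = k - 3 := by
    rw [hT, Finset.card_univ_sdiff, ZMod.card]
    congr 1
    exact Finset.card_eq_three.mpr ⟨_, _, _, pred_ne hk i, pred_ne_succ hk i, (succ_ne hk i).symm, rfl⟩
  have hsub : (univ.filter fun v : ZMod k ↪ V => v i = a ∧ v (i + 1) = b ∧
      ∃ j, j ≠ i ∧ s(v j, v (j + 1)) = s(c, d)) ⊆
      T.biUnion fun j => (univ.filter fun v : ZMod k ↪ V => v i = a ∧ v (i + 1) = b ∧ v j = c ∧ v (j + 1) = d) ∪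
        (univ.filter fun v : ZMod k ↪ V => v i = a ∧ v (i + 1) = b ∧ v j = d ∧ v (j + 1) = c) := by
    intro v hv
    simp only [mem_filter, mem_univ, true_and] at hv
    obtain ⟨h1, h2, j, hj, hs⟩ := hv
    rw [Sym2.eq_iff] at hs
    rw [mem_biUnion]
    refine ⟨j, ?_, ?_⟩
    · rw [hT, mem_sdiff]
      refine ⟨mem_univ _, ?_⟩
      simp only [mem_insert, mem_singleton]
      rintro (h | h | h)
      · have h5 : j + 1 = i := by rw [h]; ring
        rw [h5, h1] at hs
        rcases hs with hs | hs
        · exact had hs.2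
        · exact hac hs.2
      · exact hj h
      · rw [h, h2] at hs
        rcases hs with hs | hs
        · exact hbc hs.1
        · exact hbd hs.1
    · simp only [mem_union, mem_filter, mem_univ, true_and]
      rcases hs with hs | hs
      · left; exact ⟨h1, h2, hs.1, hs.2⟩
      · right; exact ⟨h1, h2, hs.1, hs.2⟩
  have h4 : ∀ j ∈ T, ((univ.filter fun v : ZMod k ↪ V => v i = a ∧ v (i + 1) = b ∧ v j = c ∧ v (j + 1) = d) ∪
        (univ.filter fun v : ZMod k ↪ V => v i = a ∧ v (i + 1) = b ∧ v j = d ∧ v (j + 1) = c)).card ≤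
        2 * (Fintype.card V - 4).descFactorial (k - 4) := by
    intro j hj
    rw [hT, mem_sdiff] at hj
    simp only [mem_univ, true_and, mem_insert, mem_singleton, not_or] at hj
    obtain ⟨hj1, hj2, hj3⟩ := hj
    have e1 : i ≠ i + 1 := (succ_ne hk i).symm
    have e2 : i ≠ j := Ne.symm hj2
    have e3 : i ≠ j + 1 := fun h => hj1 (by rw [h]; ring)
    have e4 : i + 1 ≠ j := Ne.symm hj3
    have e5 : i + 1 ≠ j + 1 := fun h => hj2 (add_right_cancel h).symm
    have e6 : j ≠ j + 1 := (succ_ne hk j).symm
    refine (Finset.card_union_le _ _).trans ?_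
    rw [card_ext4 e1 e2 e3 e4 e5 e6 hab hac had hbc hbd hcd,
      card_ext4 e1 e2 e3 e4 e5 e6 hab had hac hbd hbc hcd.symm, ZMod.card]
    omega
  refine (Finset.card_le_card hsub).trans ((Finset.card_biUnion_le_card_mul _ _ _ h4).trans ?_)
  rw [hTc]
  rcases Nat.eq_or_lt_of_le hk with h3 | h3
  · rw [← h3]; simp
  · obtain ⟨k', rfl⟩ : ∃ k', k = k' + 4 := ⟨k - 4, by omega⟩
    obtain ⟨n', hn'⟩ : ∃ n', Fintype.card V = n' + 4 := ⟨Fintype.card V - 4, by omega⟩
    rw [hn'] at hn ⊢
    have e1 : k' + 4 - 3 = k' + 1 := by omega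
    have e2 : k' + 4 - 4 = k' := by omega
    have e3 : n' + 4 - 3 = n' + 1 := by omega
    have e4 : n' + 4 - 4 = n' := by omega
    rw [e1, e3] at hn
    rw [e1, e2, e3, e4, Nat.succ_descFactorial_succ]
    calc (k' + 1) * (2 * n'.descFactorial k') = (2 * (k' + 1)) * n'.descFactorial k' := by ring
      _ ≤ (n' + 1) * n'.descFactorial k' := Nat.mul_le_mul_right _ hn

theorem bad_all (hk : 3 ≤ k) (hn : 2 * (k - 3) ≤ Fintype.card V - 3) (i : ZMod k) {a b : V}
    (hab : a ≠ b) (e : Sym2 V) (he : ¬ e.IsDiag) (hne : e ≠ s(a, b)) :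
    (univ.filter fun v : ZMod k ↪ V => v i = a ∧ v (i + 1) = b ∧
      ∃ j, j ≠ i ∧ s(v j, v (j + 1)) = e).card ≤
      (Fintype.card V - 3).descFactorial (k - 3) := by
  induction e using Sym2.ind with
  | _ c d =>
    rw [Sym2.mk_isDiag_iff] at he
    by_cases h1 : c = b
    · subst h1
      apply bad_b hk i hab _ (Ne.symm he)
      rintro rfl
      exact hne (Sym2.eq_swap)
    by_cases h2 : d = b
    · subst h2
      rw [Sym2.eq_swap]
      apply bad_b hk i hab _ he
      rintro rfl
      exact hne rfl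
    by_cases h3 : c = a
    · subst h3
      exact bad_a hk i hab (Ne.symm he) h2
    by_cases h4 : d = a
    · subst h4
      rw [Sym2.eq_swap]
      exact bad_a hk i hab he h1
    exact bad_disj hk hn i hab (Ne.symm h3) (Ne.symm h4) (Ne.symm h1) (Ne.symm h2) he

open scoped Classical in
theorem fr_eq (G : SimpleGraph V) : fr k G =
    (univ.filter fun v : ZMod k ↪ V => Odd (univ.filter fun i => G.Adj (v i) (v (i + 1))).card).card := by
  unfold fr
  have h1 : {v : ZMod k → V | Function.Injective v ∧ Odd {i : ZMod k | G.Adj (v i) (v (i + 1))}.ncard} =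
      (fun v : ZMod k ↪ V => (v : ZMod k → V)) '' {v | Odd {i : ZMod k | G.Adj (v i) (v (i + 1))}.ncard} := by
    ext v
    constructor
    · rintro ⟨h1, h2⟩
      exact ⟨⟨v, h1⟩, h2, rfl⟩
    · rintro ⟨v', h1, rfl⟩
      exact ⟨v'.injective, h1⟩
  rw [h1, Set.ncard_image_of_injective _ DFunLike.coe_injective, Set.ncard_eq_toFinset_card']
  congr 1
  ext v
  simp only [Set.mem_toFinset, Set.mem_ofPred_eq, mem_filter, mem_univ, true_and]
  rw [Set.ncard_eq_toFinset_card']
  have : (univ.filter fun i => G.Adj (v i) (v (i + 1))) = {i : ZMod k | G.Adj (v i) (v (i + 1))}.toFinset := by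
    ext i; simp
  rw [this]

open scoped Classical in
theorem good_dart (hk : 3 ≤ k) (hn : 2 * (k - 3) ≤ Fintype.card V - 3) (D : SimpleGraph V)
    (hm : D.edgeFinset.card + 1 ≤ Fintype.card V) (h3 : 3 ≤ Fintype.card V) (i : ZMod k) {a b : V}
    (hab : D.Adj a b) :
    (Fintype.card V - 3).descFactorial (k - 3) * (Fintype.card V - 1 - D.edgeFinset.card) ≤
    (univ.filter fun v : ZMod k ↪ V => v i = a ∧ v (i + 1) = b ∧
      ∀ j, j ≠ i → ¬ D.Adj (v j) (v (j + 1))).card := by
  set n := Fintype.card V with hnn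
  set m := D.edgeFinset.card with hmm
  have hsub : (univ.filter fun v : ZMod k ↪ V => v i = a ∧ v (i + 1) = b) ⊆
      (univ.filter fun v : ZMod k ↪ V => v i = a ∧ v (i + 1) = b ∧
        ∀ j, j ≠ i → ¬ D.Adj (v j) (v (j + 1))) ∪
      (D.edgeFinset.erase s(a, b)).biUnion fun e => (univ.filter fun v : ZMod k ↪ V => v i = a ∧ v (i + 1) = b ∧
        ∃ j, j ≠ i ∧ s(v j, v (j + 1)) = e) := by
    intro v hv
    simp only [mem_filter, mem_univ, true_and] at hv
    rw [mem_union]
    by_cases h : ∀ j, j ≠ i → ¬ D.Adj (v j) (v (j + 1))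
    · left
      simp only [mem_filter, mem_univ, true_and]
      exact ⟨hv.1, hv.2, h⟩
    · right
      push Not at h
      obtain ⟨j, hj, hj2⟩ := h
      rw [mem_biUnion]
      refine ⟨s(v j, v (j + 1)), ?_, ?_⟩
      · rw [mem_erase]
        refine ⟨?_, by rw [SimpleGraph.mem_edgeFinset]; exact hj2⟩
        rw [← hv.1, ← hv.2, Ne, Sym2.eq_iff]
        rintro (⟨h4, _⟩ | ⟨h4, h5⟩)
        · exact hj (v.injective h4)
        · have e1 := v.injective h4
          have e2 := v.injective h5
          rw [e1] at e2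
          exact succ2_ne hk i e2
      · simp only [mem_filter, mem_univ, true_and]
        exact ⟨hv.1, hv.2, j, hj, rfl⟩
  have h1 := Finset.card_le_card hsub
  rw [card_ext2 (succ_ne hk i).symm hab.ne, ZMod.card, ← hnn] at h1
  have h2 := h1.trans (Finset.card_union_le _ _)
  have h4 : ((D.edgeFinset.erase s(a, b)).biUnion fun e => (univ.filter fun v : ZMod k ↪ V => v i = a ∧ v (i + 1) = b ∧
        ∃ j, j ≠ i ∧ s(v j, v (j + 1)) = e)).card ≤ (m - 1) * (n - 3).descFactorial (k - 3) := by
    refine (Finset.card_biUnion_le_card_mul _ _ ((n - 3).descFactorial (k - 3)) ?_).trans ?_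
    · intro e he
      rw [mem_erase, SimpleGraph.mem_edgeFinset] at he
      exact bad_all hk hn i hab.ne e (D.not_isDiag_of_mem_edgeSet he.2) he.1
    · apply Nat.mul_le_mul_right
      rw [Finset.card_erase_of_mem]
      rw [SimpleGraph.mem_edgeFinset]; exact hab
  have h5 : (n - 2).descFactorial (k - 2) = (n - 2) * (n - 3).descFactorial (k - 3) := by
    obtain ⟨k', rfl⟩ : ∃ k', k = k' + 3 := ⟨k - 3, by omega⟩
    obtain ⟨n', hn'⟩ : ∃ n', n = n' + 3 := ⟨n - 3, by omega⟩
    rw [hn']
    have e1 : k' + 3 - 3 = k' := by omega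
    have e2 : k' + 3 - 2 = k' + 1 := by omega
    have e3 : n' + 3 - 3 = n' := by omega
    have e4 : n' + 3 - 2 = n' + 1 := by omega
    rw [e1, e2, e3, e4, Nat.succ_descFactorial_succ]
  have h6 : 1 ≤ m := by
    rw [hmm]
    apply Finset.card_pos.mpr
    exact ⟨s(a, b), by rw [SimpleGraph.mem_edgeFinset]; exact hab⟩
  have h7 : (n - 3).descFactorial (k - 3) * (n - 1 - m) + (m - 1) * (n - 3).descFactorial (k - 3) =
      (n - 2).descFactorial (k - 2) := by
    rw [h5]
    have : n - 2 = (n - 1 - m) + (m - 1) := by omega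
    rw [this]; ring
  omega

open scoped Classical in
theorem fr_lower (hk : 3 ≤ k) (hn : 2 * (k - 3) ≤ Fintype.card V - 3) (D : SimpleGraph V)
    (hm : D.edgeFinset.card + 1 ≤ Fintype.card V) (h3 : 3 ≤ Fintype.card V) :
    k * (2 * D.edgeFinset.card) * ((Fintype.card V - 3).descFactorial (k - 3) *
      (Fintype.card V - 1 - D.edgeFinset.card)) ≤ fr k D := by
  rw [fr_eq]
  have hsub : (univ : Finset (ZMod k × D.Dart)).biUnion (fun p => (univ.filter fun v : ZMod k ↪ V =>
      v p.1 = p.2.fst ∧ v (p.1 + 1) = p.2.snd ∧ ∀ j, j ≠ p.1 → ¬ D.Adj (v j) (v (j + 1)))) ⊆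
      (univ.filter fun v : ZMod k ↪ V => Odd (univ.filter fun i => D.Adj (v i) (v (i + 1))).card) := by
    intro v hv
    rw [mem_biUnion] at hv
    obtain ⟨⟨i, d⟩, _, hv⟩ := hv
    simp only [mem_filter, mem_univ, true_and] at hv ⊢
    have : (univ.filter fun i => D.Adj (v i) (v (i + 1))) = {i} := by
      ext j
      simp only [mem_filter, mem_univ, true_and, mem_singleton]
      constructor
      · intro h
        by_contra hne
        exact hv.2.2 j hne h
      · rintro rfl
        rw [hv.1, hv.2.1]
        exact d.adj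
    rw [this]; simp
  refine le_trans ?_ (Finset.card_le_card hsub)
  rw [Finset.card_biUnion]
  · have h1 : Fintype.card (ZMod k × D.Dart) = k * (2 * D.edgeFinset.card) := by
      rw [Fintype.card_prod, ZMod.card, D.dart_card_eq_twice_card_edges]
    rw [← h1, ← Finset.card_univ, ← smul_eq_mul]
    apply Finset.card_nsmul_le_sum
    rintro ⟨i, d⟩ _
    exact good_dart hk hn D hm h3 i d.adj
  · rintro ⟨i, d⟩ _ ⟨i', d'⟩ _ hne
    rw [Function.onFun, Finset.disjoint_left]
    intro v hv hv'
    simp only [mem_filter, mem_univ, true_and] at hv hv'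
    apply hne
    have hi : i = i' := by
      by_contra h
      apply hv.2.2 i' (Ne.symm h)
      rw [hv'.1, hv'.2.1]
      exact d'.adj
    subst hi
    have : d = d' := by
      apply SimpleGraph.Dart.ext
      apply Prod.ext
      · exact hv.1.symm.trans hv'.1
      · exact hv.2.1.symm.trans hv'.2.1
    rw [this]

open scoped Classical in
theorem fr_star_le (hk : 3 ≤ k) (n s : ℕ) (hs : s + 1 ≤ n) :
    fr k (star n s) ≤ k * (2 * s) * ((n - 3).descFactorial (k - 3) * (n - 1 - s)) := by
  rw [fr_eq]
  set c : Fin n := ⟨0, by omega⟩ with hc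
  set L : Finset (Fin n) := univ.filter fun x => 1 ≤ x.val ∧ x.val ≤ s with hL
  set R : Finset (Fin n) := univ.filter fun x => s < x.val with hR
  have hLR : L.card + R.card = n - 1 := by
    have hd : Disjoint L R := by
      rw [Finset.disjoint_left]
      intro x hx hx'
      simp only [hL, hR, mem_filter, mem_univ, true_and] at hx hx'
      omega
    rw [← Finset.card_union_of_disjoint hd]
    have : L ∪ R = univ.erase c := by
      ext x
      simp only [hL, hR, mem_union, mem_filter, mem_univ, true_and, mem_erase, and_true, Ne, hc, Fin.ext_iff]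
      omega
    rw [this, Finset.card_erase_of_mem (mem_univ _), Finset.card_univ, Fintype.card_fin]
  have hLc : L.card = s := by
    have : L.map Fin.valEmbedding = Finset.Icc 1 s := by
      ext x
      simp only [hL, mem_map, mem_filter, mem_univ, true_and, Fin.valEmbedding_apply, mem_Icc]
      constructor
      · rintro ⟨y, hy, rfl⟩; exact hy
      · intro hx
        exact ⟨⟨x, by omega⟩, hx, rfl⟩
    rw [← Finset.card_map, this]; simp
  have hRc : R.card = n - 1 - s := by omega
  have hadj : ∀ x y : Fin n, (star n s).Adj x y ↔ (x = c ∧ y ∈ L) ∨ (y = c ∧ x ∈ L) := by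
    intro x y
    simp only [star, hL, hc, mem_filter, mem_univ, true_and, Fin.ext_iff]
  have hsub : (univ.filter fun v : ZMod k ↪ Fin n =>
      Odd (univ.filter fun i => (star n s).Adj (v i) (v (i + 1))).card) ⊆
      ((univ : Finset (ZMod k)) ×ˢ (L ×ˢ R ∪ R ×ˢ L)).biUnion fun q =>
        (univ.filter fun v : ZMod k ↪ Fin n => v q.1 = c ∧ v (q.1 + 1) = q.2.1 ∧ v (q.1 - 1) = q.2.2) := by
    intro v hv
    simp only [mem_filter, mem_univ, true_and] at hv
    have hex : ∃ p, v p = c := by
      by_contra hcon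
      push Not at hcon
      have : (univ.filter fun i => (star n s).Adj (v i) (v (i + 1))) = ∅ := by
        rw [Finset.filter_eq_empty_iff]
        intro i _ h
        rw [hadj] at h
        rcases h with h | h
        · exact hcon _ h.1
        · exact hcon _ h.1
      rw [this] at hv
      simp at hv
    obtain ⟨p, hp⟩ := hex
    have hposiff : ∀ j, (star n s).Adj (v j) (v (j + 1)) ↔ (j = p ∧ v (p + 1) ∈ L) ∨ (j = p - 1 ∧ v (p - 1) ∈ L) := by
      intro j
      rw [hadj]
      constructor
      · rintro (⟨h1, h2⟩ | ⟨h1, h2⟩)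
        · have : j = p := v.injective (h1.trans hp.symm)
          subst this
          exact Or.inl ⟨rfl, h2⟩
        · have : j + 1 = p := v.injective (h1.trans hp.symm)
          have hj : j = p - 1 := by rw [← this]; ring
          subst hj
          exact Or.inr ⟨rfl, h2⟩
      · rintro (⟨h1, h2⟩ | ⟨h1, h2⟩)
        · subst h1
          exact Or.inl ⟨hp, h2⟩
        · subst h1
          right
          rw [sub_add_cancel]
          exact ⟨hp, h2⟩
    have hR' : ∀ q, q ≠ p → v q ∉ L → v q ∈ R := by
      intro q hq h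
      have h0 : v q ≠ c := by
        intro h1
        exact hq (v.injective (h1.trans hp.symm))
      simp only [hL, hR, hc, mem_filter, mem_univ, true_and, Ne, Fin.ext_iff] at h h0 ⊢
      omega
    rw [mem_biUnion]
    refine ⟨(p, (v (p + 1), v (p - 1))), ?_, ?_⟩
    · rw [mem_product]
      refine ⟨mem_univ _, ?_⟩
      simp only [mem_union, mem_product]
      by_cases hA : v (p + 1) ∈ L <;> by_cases hB : v (p - 1) ∈ L
      · exfalso
        have : (univ.filter fun i => (star n s).Adj (v i) (v (i + 1))) = {p, p - 1} := by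
          ext j
          simp only [mem_filter, mem_univ, true_and, hposiff, hA, hB, and_true, mem_insert, mem_singleton]
        rw [this, Finset.card_pair (pred_ne hk p).symm] at hv
        exact absurd hv (by decide)
      · left; exact ⟨hA, hR' _ (pred_ne hk p) hB⟩
      · right; exact ⟨hR' _ (succ_ne hk p) hA, hB⟩
      · exfalso
        have : (univ.filter fun i => (star n s).Adj (v i) (v (i + 1))) = ∅ := by
          ext j
          simp only [mem_filter, mem_univ, hposiff, hA, hB, and_false, or_false, notMem_empty]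
        rw [this] at hv
        simp at hv
    · simp only [mem_filter, mem_univ, true_and, and_true]
      exact hp
  refine (Finset.card_le_card hsub).trans ((Finset.card_biUnion_le_card_mul _ _ ((n - 3).descFactorial (k - 3)) ?_).trans ?_)
  · rintro ⟨p, a, b⟩ hq
    rw [mem_product] at hq
    simp only [mem_univ, true_and, mem_union, mem_product, hL, hR, mem_filter] at hq
    have h1 : c ≠ a := by
      rw [hc, Ne, Fin.ext_iff]; simp only; omega
    have h2 : c ≠ b := by
      rw [hc, Ne, Fin.ext_iff]; simp only; omega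
    have h3 : a ≠ b := by
      rw [Ne, Fin.ext_iff]; omega
    have := card_ext3 (succ_ne hk p).symm (pred_ne hk p).symm (pred_ne_succ hk p).symm h1 h2 h3
    rw [ZMod.card, Fintype.card_fin] at this
    exact this.le
  · rw [Finset.card_product, Finset.card_univ, ZMod.card]
    have : (L ×ˢ R ∪ R ×ˢ L).card ≤ 2 * s * (n - 1 - s) := by
      refine (Finset.card_union_le _ _).trans ?_
      rw [Finset.card_product, Finset.card_product, hLc, hRc]
      apply le_of_eq; ring
    calc k * (L ×ˢ R ∪ R ×ˢ L).card * (n - 3).descFactorial (k - 3)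
        ≤ k * (2 * s * (n - 1 - s)) * (n - 3).descFactorial (k - 3) :=
          Nat.mul_le_mul_right _ (Nat.mul_le_mul_left _ this)
      _ = k * (2 * s) * ((n - 3).descFactorial (k - 3) * (n - 1 - s)) := by ring

end Local

/-! ### Structure -/

section Structure

variable {k : ℕ} [NeZero k] {V : Type} [Fintype V] [DecidableEq V]

open scoped Classical in
/-- adjacency in the field with two elements -/
noncomputable def af (G : SimpleGraph V) (x y : V) : ZMod 2 := if G.Adj x y then 1 else 0

theorem af_symm (G : SimpleGraph V) (x y : V) : af G x y = af G y x := by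
  by_cases h : G.Adj x y
  · have h' := h.symm
    simp [af, h, h']
  · have h' : ¬ G.Adj y x := fun h' => h h'.symm
    simp [af, h, h']

theorem z2_cases (a : ZMod 2) : a = 0 ∨ a = 1 := by
  revert a; decide

open scoped Classical in
theorem odd_iff (G : SimpleGraph V) (v : ZMod k → V) :
    Odd (univ.filter fun i => G.Adj (v i) (v (i + 1))).card ↔ ∑ i, af G (v i) (v (i + 1)) = 1 := by
  rw [← ZMod.natCast_eq_one_iff_odd, Finset.natCast_card_filter]
  rfl

open scoped Classical in
theorem fr_eq' (G : SimpleGraph V) : fr k G =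
    (univ.filter fun v : ZMod k → V => Function.Injective v ∧ ∑ i, af G (v i) (v (i + 1)) = 1).card := by
  unfold fr
  rw [Set.ncard_eq_toFinset_card']
  congr 1
  ext v
  simp only [Set.mem_toFinset, Set.mem_ofPred_eq, mem_filter, mem_univ, true_and]
  rw [Set.ncard_eq_toFinset_card', ← odd_iff]
  have : (univ.filter fun i => G.Adj (v i) (v (i + 1))) = {i : ZMod k | G.Adj (v i) (v (i + 1))}.toFinset := by
    ext i; simp
  rw [this]

/-- positions other than `0, 1` -/
abbrev J (k : ℕ) : Type := {i : ZMod k // i ≠ 0 ∧ i ≠ 1}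

/-- the sequence with entries `x, y` at `0, 1` and `z` elsewhere -/
def glue (z : J k → V) (x y : V) (i : ZMod k) : V :=
  if h0 : i = 0 then x else if h1 : i = 1 then y else z ⟨i, h0, h1⟩

theorem glue_zero (z : J k → V) (x y : V) : glue z x y 0 = x := dif_pos rfl

theorem glue_one (hk : 3 ≤ k) (z : J k → V) (x y : V) : glue z x y 1 = y := by
  unfold glue
  rw [dif_neg (one_ne hk), dif_pos rfl]

theorem glue_of (z : J k → V) (x y : V) (i : J k) : glue z x y i.1 = z i := by
  unfold glue
  rw [dif_neg i.2.1, dif_neg i.2.2]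

theorem glue_ne (z : J k → V) (x y x' y' : V) {i : ZMod k} (h0 : i ≠ 0) (h1 : i ≠ 1) :
    glue z x y i = glue z x' y' i := by
  unfold glue
  rw [dif_neg h0, dif_neg h1, dif_neg h0, dif_neg h1]

theorem glue_injective (hk : 3 ≤ k) (z : J k → V) (hz : Function.Injective z) {x y : V} (hxy : x ≠ y)
    (hx : ∀ j, z j ≠ x) (hy : ∀ j, z j ≠ y) : Function.Injective (glue z x y) := by
  intro i j hij
  by_cases hi0 : i = 0
  · subst hi0
    rw [glue_zero] at hij
    by_cases hj0 : j = 0
    · exact hj0.symm
    by_cases hj1 : j = 1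
    · subst hj1
      rw [glue_one hk] at hij
      exact absurd hij hxy
    · have := glue_of z x y ⟨j, hj0, hj1⟩
      rw [this] at hij
      exact absurd hij.symm (hx _)
  by_cases hi1 : i = 1
  · subst hi1
    rw [glue_one hk] at hij
    by_cases hj0 : j = 0
    · subst hj0
      rw [glue_zero] at hij
      exact absurd hij.symm hxy
    by_cases hj1 : j = 1
    · exact hj1.symm
    · have := glue_of z x y ⟨j, hj0, hj1⟩
      rw [this] at hij
      exact absurd hij.symm (hy _)
  have h1 := glue_of z x y ⟨i, hi0, hi1⟩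
  rw [h1] at hij
  by_cases hj0 : j = 0
  · subst hj0
    rw [glue_zero] at hij
    exact absurd hij (hx _)
  by_cases hj1 : j = 1
  · subst hj1
    rw [glue_one hk] at hij
    exact absurd hij (hy _)
  have h2 := glue_of z x y ⟨j, hj0, hj1⟩
  rw [h2] at hij
  exact congrArg Subtype.val (hz hij)

theorem sum_glue (hk : 3 ≤ k) (G : SimpleGraph V) (z : J k → V) :
    ∃ f g : V → ZMod 2, ∀ x y, ∑ i, af G (glue z x y i) (glue z x y (i + 1)) = af G x y + f x + g y := by
  have h10 : (1 : ZMod k) ≠ 0 := one_ne hk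
  have hm0 : (-1 : ZMod k) ≠ 0 := neg_ne_zero.mpr h10
  have hm1 : (-1 : ZMod k) ≠ 1 := by
    intro h
    exact two_ne hk (by linear_combination -h)
  have h20 : (1 : ZMod k) + 1 ≠ 0 := two_ne hk
  have h21 : (1 : ZMod k) + 1 ≠ 1 := succ_ne hk 1
  set x0 : V := z ⟨-1, hm0, hm1⟩ with hx0
  refine ⟨fun x => af G x0 x + ∑ i ∈ ((univ.erase (0 : ZMod k)).erase 1).erase (-1),
    af G (glue z x0 x0 i) (glue z x0 x0 (i + 1)), fun y => af G y (z ⟨1 + 1, h20, h21⟩), ?_⟩
  intro x y
  have m0 : (0 : ZMod k) ∈ (univ : Finset (ZMod k)) := mem_univ _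
  have m1 : (1 : ZMod k) ∈ (univ : Finset (ZMod k)).erase 0 := by simp [h10]
  have m2 : (-1 : ZMod k) ∈ ((univ : Finset (ZMod k)).erase 0).erase 1 := by simp [hm0, hm1]
  rw [← Finset.add_sum_erase _ _ m0, ← Finset.add_sum_erase _ _ m1, ← Finset.add_sum_erase _ _ m2]
  have hrest : ∑ i ∈ ((univ.erase (0 : ZMod k)).erase 1).erase (-1), af G (glue z x y i) (glue z x y (i + 1)) =
      ∑ i ∈ ((univ.erase (0 : ZMod k)).erase 1).erase (-1),
    af G (glue z x0 x0 i) (glue z x0 x0 (i + 1)) := by
    apply Finset.sum_congr rfl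
    intro i hi
    simp only [mem_erase, mem_univ, and_true] at hi
    obtain ⟨h1, h2, h3⟩ := hi
    rw [glue_ne z x y x0 x0 h3 h2, glue_ne z x y x0 x0 (i := i + 1)]
    · intro h; exact h1 (by linear_combination h)
    · intro h; exact h3 (by linear_combination h)
  rw [hrest]
  have e1 : glue z x y (0 + 1) = y := by rw [zero_add, glue_one hk]
  have e2 : glue z x y (1 + 1) = z ⟨1 + 1, h20, h21⟩ := glue_of z x y ⟨1 + 1, h20, h21⟩
  have e3 : glue z x y (-1) = x0 := glue_of z x y ⟨-1, hm0, hm1⟩
  have e4 : glue z x y (-1 + 1) = x := by rw [neg_add_cancel, glue_zero]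
  rw [e1, e2, e3, e4, glue_zero, glue_one hk]
  ring

open scoped Classical in
/-- bad pairs for `z` -/
noncomputable def badPairs (G : SimpleGraph V) (z : J k → V) : Finset (V × V) :=
  univ.filter fun p : V × V => (∀ j, z j ≠ p.1) ∧ (∀ j, z j ≠ p.2) ∧ p.1 ≠ p.2 ∧
    ∑ i, af G (glue z p.1 p.2 i) (glue z p.1 p.2 (i + 1)) = 1

open scoped Classical in
/-- exceptional pairs outside `S` for the description `c + f x + f y` -/
noncomputable def exc (G : SimpleGraph V) (S : Finset V) (c : ZMod 2) (f : V → ZMod 2) : Finset (V × V) :=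
  univ.filter fun p : V × V => p.1 ∉ S ∧ p.2 ∉ S ∧ p.1 ≠ p.2 ∧ af G p.1 p.2 ≠ c + f p.1 + f p.2

open scoped Classical in
/-- a vertex not touched by a small set of pairs, outside a small set -/
theorem exists_clean (X : Finset (V × V)) (S : Finset V) (h : 2 * X.card + S.card < Fintype.card V) :
    ∃ y, y ∉ S ∧ ∀ x, (x, y) ∉ X ∧ (y, x) ∉ X := by
  have : ∃ y ∈ (univ : Finset V), y ∉ X.image Prod.fst ∪ X.image Prod.snd ∪ S := by
    apply Finset.exists_mem_notMem_of_card_lt_card
    calc _ ≤ (X.image Prod.fst ∪ X.image Prod.snd).card + S.card := Finset.card_union_le _ _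
      _ ≤ (X.image Prod.fst).card + (X.image Prod.snd).card + S.card :=
        Nat.add_le_add_right (Finset.card_union_le _ _) _
      _ ≤ X.card + X.card + S.card := by
        gcongr <;> exact Finset.card_image_le
      _ < Fintype.card V := by omega
  obtain ⟨y, _, hy⟩ := this
  simp only [mem_union, mem_image, not_or, not_exists, not_and] at hy
  refine ⟨y, hy.2, fun x => ⟨fun h => ?_, fun h => ?_⟩⟩
  · exact hy.1.2 _ h rfl
  · exact hy.1.1 _ h rfl

open scoped Classical in
theorem structure_of_z (hk : 3 ≤ k) (G : SimpleGraph V) (z : J k → V)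
    (hU : 2 * (badPairs G z).card + k < Fintype.card V) :
    ∃ c : ZMod 2, ∃ f : V → ZMod 2, (exc G (univ.image z) c f).card ≤ (badPairs G z).card := by
  obtain ⟨f, g, hfg⟩ := sum_glue hk G z
  have hJ : (univ.image z).card ≤ k := by
    refine (Finset.card_image_le).trans ?_
    rw [Finset.card_univ]
    calc Fintype.card (J k) ≤ Fintype.card (ZMod k) := Fintype.card_subtype_le _
      _ = k := ZMod.card k
  obtain ⟨y0, hy0, hclean⟩ := exists_clean (badPairs G z) (univ.image z) (by omega)
  have hgood : ∀ x y, x ∉ univ.image z → y ∉ univ.image z → x ≠ y → (x, y) ∉ badPairs G z →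
      af G x y = f x + g y := by
    intro x y hx hy hxy hbad
    have h0 : ¬ (∑ i, af G (glue z x y i) (glue z x y (i + 1)) = 1) := by
      intro h
      apply hbad
      simp only [badPairs, mem_filter, mem_univ, true_and]
      refine ⟨fun j hj => hx ?_, fun j hj => hy ?_, hxy, h⟩
      · rw [mem_image]; exact ⟨j, mem_univ _, hj⟩
      · rw [mem_image]; exact ⟨j, mem_univ _, hj⟩
    rw [hfg] at h0
    have h1 : af G x y + f x + g y = 0 := by
      rcases z2_cases (af G x y + f x + g y) with h | h
      · exact h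
      · exact absurd h h0
    have h2 : f x + f x = 0 := CharTwo.add_self_eq_zero _
    have h3 : g y + g y = 0 := CharTwo.add_self_eq_zero _
    linear_combination h1 - h2 - h3
  set c := f y0 + g y0 with hc
  have hconst : ∀ x, x ∉ univ.image z → g x = c + f x := by
    intro x hx
    by_cases hxy : x = y0
    · subst hxy
      have h2 : f x + f x = 0 := CharTwo.add_self_eq_zero _
      linear_combination -h2
    · have h1 := hgood x y0 hx hy0 hxy (hclean x).1
      have h2 := hgood y0 x hy0 hx (Ne.symm hxy) (hclean x).2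
      rw [af_symm] at h2
      have h3 : f y0 + f y0 = 0 := CharTwo.add_self_eq_zero _
      linear_combination h1 - h2 - h3
  refine ⟨c, f, Finset.card_le_card ?_⟩
  intro p hp
  simp only [exc, mem_filter, mem_univ, true_and] at hp
  obtain ⟨h1, h2, h3, h4⟩ := hp
  by_contra hbad
  apply h4
  rw [hgood p.1 p.2 h1 h2 h3 hbad, hconst p.2 h2]
  ring

open scoped Classical in
theorem exists_good_z (hk : 3 ≤ k) (G : SimpleGraph V) (V1 : Finset V) (hV1 : k ≤ V1.card) :
    ∃ z : J k → V, (∀ j, z j ∈ V1) ∧
      (badPairs G z).card * V1.card.descFactorial (k - 2) ≤ fr k G := by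
  set Z : Finset (J k ↪ {x // x ∈ V1}) := univ with hZ
  have hJ : Fintype.card (J k) = k - 2 := by
    have h1 : Fintype.card (J k) = (univ.filter fun i : ZMod k => i ≠ 0 ∧ i ≠ 1).card := Fintype.card_subtype _
    have h2 : (univ.filter fun i : ZMod k => i ≠ 0 ∧ i ≠ 1) = univ \ {0, 1} := by
      ext i; simp
    rw [h1, h2, Finset.card_univ_sdiff, ZMod.card, Finset.card_pair (one_ne hk).symm]
  have hZc : Z.card = V1.card.descFactorial (k - 2) := by
    rw [hZ, Finset.card_univ, Fintype.card_embedding_eq, hJ, Fintype.card_coe]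
  have hZpos : 0 < Z.card := by
    rw [hZc, Nat.pos_iff_ne_zero, Ne, Nat.descFactorial_eq_zero_iff_lt]
    omega
  let val : (J k ↪ {x // x ∈ V1}) → J k → V := fun z j => (z j).1
  have hsum : ∑ z ∈ Z, (badPairs G (val z)).card ≤ fr k G := by
    rw [fr_eq', ← Finset.card_sigma]
    apply Finset.card_le_card_of_injOn (fun q => glue (val q.1) q.2.1 q.2.2)
    · rintro ⟨z, p⟩ hq
      simp only [mem_coe, mem_sigma, badPairs, mem_filter, mem_univ, true_and] at hq ⊢
      obtain ⟨_, h1, h2, h3, h4⟩ := hq
      refine ⟨glue_injective hk (val z) ?_ h3 h1 h2, h4⟩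
      intro i j hij
      exact z.injective (Subtype.ext hij)
    · rintro ⟨z, p⟩ _ ⟨z', p'⟩ _ heq
      simp only at heq
      have e0 := congrFun heq 0
      have e1 := congrFun heq 1
      rw [glue_zero, glue_zero] at e0
      rw [glue_one hk, glue_one hk] at e1
      have ez : z = z' := by
        ext j
        have := congrFun heq j.1
        rw [glue_of, glue_of] at this
        exact this
      subst ez
      have ep : p = p' := Prod.ext e0 e1
      rw [ep]
  by_contra hcon
  push Not at hcon
  have h1 : Z.card * (fr k G + 1) ≤ ∑ z ∈ Z, ((badPairs G (val z)).card * V1.card.descFactorial (k - 2)) := by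
    rw [← smul_eq_mul]
    apply Finset.card_nsmul_le_sum
    intro z _
    exact hcon (val z) (fun j => (z j).2)
  rw [← Finset.sum_mul, ← hZc] at h1
  have h2 : (∑ z ∈ Z, (badPairs G (val z)).card) * Z.card ≤ fr k G * Z.card := Nat.mul_le_mul_right _ hsum
  have h3 : Z.card * (fr k G + 1) = fr k G * Z.card + Z.card := by ring
  omega

open scoped Classical in
/-- two descriptions outside disjoint sets give a global one -/
theorem merge (G : SimpleGraph V) (S T : Finset V) (hST : Disjoint S T) (c d : ZMod 2)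
    (f g : V → ZMod 2) (K L : ℕ) (h1 : (exc G S c f).card ≤ K) (h2 : (exc G T d g).card ≤ K)
    (hS : S.card ≤ L) (hT : T.card ≤ L) (hn : 4 * K + 2 * L + 3 ≤ Fintype.card V) :
    ∃ h : V → ZMod 2, (exc G ∅ c h).card ≤ 2 * K + 2 * L * L := by
  set X := exc G S c f ∪ exc G T d g with hX
  have hXc : X.card ≤ 2 * K := (Finset.card_union_le _ _).trans (by omega)
  have hUc : (S ∪ T).card ≤ 2 * L := (Finset.card_union_le _ _).trans (by omega)
  obtain ⟨y1, hy1, hc1⟩ := exists_clean X (S ∪ T) (by omega)
  obtain ⟨y2, hy2, hc2⟩ := exists_clean X (insert y1 (S ∪ T)) (by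
    have := Finset.card_insert_le y1 (S ∪ T)
    omega)
  obtain ⟨y3, hy3, hc3⟩ := exists_clean X (insert y2 (insert y1 (S ∪ T))) (by
    have := Finset.card_insert_le y1 (S ∪ T)
    have := Finset.card_insert_le y2 (insert y1 (S ∪ T))
    omega)
  simp only [mem_insert, mem_union, not_or] at hy1 hy2 hy3
  -- on clean pairs both descriptions hold
  have key : ∀ x y, x ∉ S → x ∉ T → y ∉ S → y ∉ T → x ≠ y → (x, y) ∉ X →
      f x + g x + (f y + g y) = c + d := by
    intro x y hx1 hx2 hy1 hy2 hxy hxX
    rw [hX, mem_union, not_or] at hxX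
    obtain ⟨ha, hb⟩ := hxX
    simp only [exc, mem_filter, mem_univ, true_and, not_and, not_not] at ha hb
    have e1 := ha hx1 hy1 hxy
    have e2 := hb hx2 hy2 hxy
    have e3 : d + d = 0 := CharTwo.add_self_eq_zero _
    have e4 : f x + f x = 0 := CharTwo.add_self_eq_zero _
    have e5 : f y + f y = 0 := CharTwo.add_self_eq_zero _
    have e6 : c + c = 0 := CharTwo.add_self_eq_zero _
    linear_combination e1 - e2 - e3 + e4 + e5 + 0 * e6
  have k12 := key y1 y2 hy1.1 hy1.2 hy2.2.1 hy2.2.2 (Ne.symm hy2.1) (hc1 y2).2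
  have k13 := key y1 y3 hy1.1 hy1.2 hy3.2.2.1 hy3.2.2.2 (Ne.symm hy3.2.1) (hc1 y3).2
  have k23 := key y2 y3 hy2.2.1 hy2.2.2 hy3.2.2.1 hy3.2.2.2 (Ne.symm hy3.1) (hc2 y3).2
  set w1 := f y1 + g y1 with hw1
  set w2 := f y2 + g y2 with hw2
  set w3 := f y3 + g y3 with hw3
  have s1 : w1 + w1 = 0 := CharTwo.add_self_eq_zero _
  have s2 : w2 + w2 = 0 := CharTwo.add_self_eq_zero _
  have s3 : w3 + w3 = 0 := CharTwo.add_self_eq_zero _
  have scd : c + d + (c + d) = 0 := CharTwo.add_self_eq_zero _
  have hcd : c + d = 0 := by linear_combination s1 + s2 + s3 - k12 - k13 - k23 - scd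
  have hw : ∀ x, x ∉ S → x ∉ T → f x + g x = w1 := by
    intro x hx1 hx2
    by_cases hx : x = y1
    · rw [hx]
    · have := key x y1 hx1 hx2 hy1.1 hy1.2 hx (hc1 x).1
      linear_combination this + hcd - s1
  have hcd' : c = d := by
    have e3 : d + d = 0 := CharTwo.add_self_eq_zero _
    linear_combination hcd - e3
  refine ⟨fun x => if x ∈ S then g x + w1 else f x, ?_⟩
  have hsub : exc G ∅ c (fun x => if x ∈ S then g x + w1 else f x) ⊆
      (exc G S c f ∪ exc G T d g) ∪ (S ×ˢ T ∪ T ×ˢ S) := by
    intro p hp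
    simp only [exc, mem_filter, mem_univ, true_and, notMem_empty, not_false_eq_true] at hp
    obtain ⟨h3, h4⟩ := hp
    by_cases hS1 : p.1 ∉ S ∧ p.2 ∉ S
    · apply mem_union_left
      apply mem_union_left
      simp only [exc, mem_filter, mem_univ, true_and]
      refine ⟨hS1.1, hS1.2, h3, ?_⟩
      rwa [if_neg hS1.1, if_neg hS1.2] at h4
    by_cases hT1 : p.1 ∉ T ∧ p.2 ∉ T
    · apply mem_union_left
      apply mem_union_right
      simp only [exc, mem_filter, mem_univ, true_and]
      refine ⟨hT1.1, hT1.2, h3, ?_⟩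
      have hh : ∀ x, x ∉ T → (if x ∈ S then g x + w1 else f x) = g x + w1 := by
        intro x hx
        by_cases hxS : x ∈ S
        · rw [if_pos hxS]
        · rw [if_neg hxS]
          have e := hw x hxS hx
          have e3 : g x + g x = 0 := CharTwo.add_self_eq_zero _
          linear_combination e - e3
      rw [hh _ hT1.1, hh _ hT1.2] at h4
      intro h5
      apply h4
      rw [h5, ← hcd']
      linear_combination -s1
    · apply mem_union_right
      rw [not_and_or, not_not, not_not] at hS1 hT1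
      rw [mem_union, mem_product, mem_product]
      rcases hS1 with hS1 | hS1 <;> rcases hT1 with hT1 | hT1
      · exact absurd hT1 (Finset.disjoint_left.mp hST hS1)
      · left; exact ⟨hS1, hT1⟩
      · right; exact ⟨hT1, hS1⟩
      · exact absurd hT1 (Finset.disjoint_left.mp hST hS1)
  refine (Finset.card_le_card hsub).trans ((Finset.card_union_le _ _).trans ?_)
  have h5 : (S ×ˢ T ∪ T ×ˢ S).card ≤ 2 * L * L := by
    refine (Finset.card_union_le _ _).trans ?_
    rw [Finset.card_product, Finset.card_product]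
    have := Nat.mul_le_mul hS hT
    have := Nat.mul_le_mul hT hS
    nlinarith
  have h6 : (exc G S c f ∪ exc G T d g).card ≤ 2 * K := hXc
  omega

/-- switching does not change the parity of a closed sequence -/
theorem sum_switch (h : V → ZMod 2) (v : ZMod k → V) : ∑ i, (h (v i) + h (v (i + 1))) = 0 := by
  rw [Finset.sum_add_distrib]
  have : ∑ i, h (v (i + 1)) = ∑ i, h (v i) :=
    Fintype.sum_equiv (Equiv.addRight 1) _ _ (fun i => rfl)
  rw [this]
  exact CharTwo.add_self_eq_zero _

open scoped Classical in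
/-- the graph of exceptional pairs -/
def excGraph (G : SimpleGraph V) (h : V → ZMod 2) : SimpleGraph V where
  Adj x y := x ≠ y ∧ af G x y ≠ h x + h y
  symm := ⟨fun x y hxy => ⟨hxy.1.symm, by rw [af_symm, add_comm]; exact hxy.2⟩⟩
  loopless := ⟨fun _ h => h.1 rfl⟩

theorem z2_ne (a b : ZMod 2) : a ≠ b ↔ a = b + 1 := by
  revert a b; decide

open scoped Classical in
theorem af_excGraph (G : SimpleGraph V) (h : V → ZMod 2) {x y : V} (hxy : x ≠ y) :
    af G x y = af (excGraph G h) x y + (h x + h y) := by
  by_cases hx : af G x y = h x + h y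
  · have : ¬ (excGraph G h).Adj x y := fun hh => hh.2 hx
    have h0 : af (excGraph G h) x y = 0 := if_neg this
    rw [h0, hx, zero_add]
  · have : (excGraph G h).Adj x y := ⟨hxy, hx⟩
    have h1 : af (excGraph G h) x y = 1 := if_pos this
    rw [h1, (z2_ne _ _).mp hx, add_comm]

theorem fr_excGraph (hk : 3 ≤ k) (G : SimpleGraph V) (h : V → ZMod 2) : fr k G = fr k (excGraph G h) := by
  classical
  rw [fr_eq', fr_eq']
  congr 1
  apply Finset.filter_congr
  intro v _
  apply and_congr_right
  intro hv
  have : ∑ i, af G (v i) (v (i + 1)) = ∑ i, af (excGraph G h) (v i) (v (i + 1)) := by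
    have h1 : ∀ i ∈ (univ : Finset (ZMod k)), af G (v i) (v (i + 1)) =
        af (excGraph G h) (v i) (v (i + 1)) + (h (v i) + h (v (i + 1))) := by
      intro i _
      exact af_excGraph G h (fun h' => succ_ne hk i (hv h').symm)
    rw [Finset.sum_congr rfl h1, Finset.sum_add_distrib, sum_switch, add_zero]
  rw [this]

open scoped Classical in
theorem exc_card (G : SimpleGraph V) (h : V → ZMod 2) :
    (exc G ∅ 0 h).card = 2 * (excGraph G h).edgeFinset.card := by
  rw [← SimpleGraph.dart_card_eq_twice_card_edges]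
  rw [← Fintype.card_coe]
  apply Fintype.card_congr
  refine ⟨fun p => ⟨(p.1.1, p.1.2), ?_⟩, fun d => ⟨(d.fst, d.snd), ?_⟩, ?_, ?_⟩
  · have := p.2
    simp only [exc, mem_filter, mem_univ, true_and, notMem_empty, not_false_eq_true, zero_add] at this
    exact this
  · have := d.adj
    simp only [exc, mem_filter, mem_univ, true_and, notMem_empty, not_false_eq_true, zero_add]
    exact this
  · intro p; rfl
  · intro d; rfl

open scoped Classical in
/-- few exceptional pairs for an even description: few flips from a complete bipartite graph -/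
theorem withinFlips_of (G : SimpleGraph V) (h : V → ZMod 2) (t : ℕ)
    (ht : (excGraph G h).edgeFinset.card ≤ t) : WithinFlips t G := by
  let H : SimpleGraph V := 
    { Adj := fun x y => (h x = 1 ∧ ¬ h y = 1) ∨ (¬ h x = 1 ∧ h y = 1)
      symm := ⟨fun x y hxy => by tauto⟩
      loopless := ⟨fun x hx => by tauto⟩ }
  refine ⟨H, ⟨{x | h x = 1}, fun x y => Iff.rfl⟩, ?_⟩
  have : symmDiff G.edgeSet H.edgeSet = (excGraph G h).edgeSet := by
    ext e
    induction e using Sym2.ind with
    | _ x y =>
      rw [Set.mem_symmDiff, SimpleGraph.mem_edgeSet, SimpleGraph.mem_edgeSet, SimpleGraph.mem_edgeSet]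
      by_cases hxy : x = y
      · subst hxy
        simp only [SimpleGraph.irrefl, false_and, or_self]
      · have hH : H.Adj x y ↔ h x + h y = 1 := by
          change ((h x = 1 ∧ ¬ h y = 1) ∨ (¬ h x = 1 ∧ h y = 1)) ↔ _
          generalize h x = a
          generalize h y = b
          revert a b; decide
        have hG : G.Adj x y ↔ af G x y = 1 := by
          by_cases hh : G.Adj x y
          · simp [af, hh]
          · simp [af, hh]
        have hE : (excGraph G h).Adj x y ↔ af G x y ≠ h x + h y := by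
          simp [excGraph, hxy]
        rw [hH, hG, hE]
        generalize h x + h y = a
        generalize af G x y = b
        revert a b; decide
  rw [this, ← SimpleGraph.coe_edgeFinset, Set.ncard_coe_finset]
  exact ht
  
theorem fr_compl (hk : 3 ≤ k) (hev : Even k) (G : SimpleGraph V) : fr k Gᶜ = fr k G := by
  classical
  rw [fr_eq', fr_eq']
  congr 1
  apply Finset.filter_congr
  intro v _
  apply and_congr_right
  intro hv
  have : ∑ i, af Gᶜ (v i) (v (i + 1)) = ∑ i, af G (v i) (v (i + 1)) := by
    have h1 : ∀ i ∈ (univ : Finset (ZMod k)), af Gᶜ (v i) (v (i + 1)) = 1 + af G (v i) (v (i + 1)) := by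
      intro i _
      have hne : v i ≠ v (i + 1) := fun h' => succ_ne hk i (hv h').symm
      by_cases h : G.Adj (v i) (v (i + 1))
      · have h2 : ¬ Gᶜ.Adj (v i) (v (i + 1)) := by simp [h]
        simp only [af, h, h2, if_true, if_false]
        decide
      · have h2 : Gᶜ.Adj (v i) (v (i + 1)) := by simp [h, hne]
        simp only [af, h, h2, if_true, if_false]
        decide
    rw [Finset.sum_congr rfl h1, Finset.sum_add_distrib]
    have h2 : ∑ i : ZMod k, (1 : ZMod 2) = 0 := by
      rw [Finset.sum_const, Finset.card_univ, ZMod.card, nsmul_eq_mul, mul_one,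
        ZMod.natCast_eq_zero_iff_even]
      exact hev
    rw [h2, zero_add]
  rw [this]

theorem exc_compl (G : SimpleGraph V) (h : V → ZMod 2) : exc Gᶜ ∅ 0 h = exc G ∅ 1 h := by
  classical
  ext p
  simp only [exc, mem_filter, mem_univ, true_and, notMem_empty, not_false_eq_true]
  apply and_congr_right
  intro hne
  have h1 : af Gᶜ p.1 p.2 = 1 + af G p.1 p.2 := by
    by_cases h : G.Adj p.1 p.2
    · have h2 : ¬ Gᶜ.Adj p.1 p.2 := by simp [h]
      simp only [af, h, h2, if_true, if_false]
      decide
    · have h2 : Gᶜ.Adj p.1 p.2 := by simp [h, hne]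
      simp only [af, h, h2, if_true, if_false]
      decide
  rw [h1]
  generalize af G p.1 p.2 = a
  generalize h p.1 = b
  generalize h p.2 = c
  revert a b c; decide

open scoped Classical in
/-- odd cycles: if `G` is almost the complement of a complete bipartite graph then nearly all
sequences are frustrated -/
theorem odd_case (hk : 3 ≤ k) (hodd : Odd k) (G : SimpleGraph V) (h : V → ZMod 2) (M : ℕ)
    (hM : (exc G ∅ 1 h).card ≤ M) : (Fintype.card V - 2 * M).descFactorial k ≤ fr k G := by
  set X := exc G ∅ 1 h with hX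
  set T := X.image Prod.fst ∪ X.image Prod.snd with hT
  have hTc : T.card ≤ 2 * M := by
    refine (Finset.card_union_le _ _).trans ?_
    have h1 : (X.image Prod.fst).card ≤ X.card := Finset.card_image_le
    have h2 : (X.image Prod.snd).card ≤ X.card := Finset.card_image_le
    omega
  have hcard : Fintype.card (ZMod k ↪ {x // x ∉ T}) = (Fintype.card V - T.card).descFactorial k := by
    rw [Fintype.card_embedding_eq, ZMod.card, Fintype.card_subtype_compl, Fintype.card_coe]
  have h1 : (Fintype.card V - 2 * M).descFactorial k ≤ (Fintype.card V - T.card).descFactorial k :=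
    Nat.descFactorial_le k (by omega)
  refine h1.trans ?_
  rw [← hcard, ← Finset.card_univ, fr_eq']
  apply Finset.card_le_card_of_injOn (fun v => fun i => (v i).1)
  · intro v _
    simp only [mem_coe, mem_filter, mem_univ, true_and]
    have hinj : Function.Injective fun i => (v i).1 := fun i j hij => v.injective (Subtype.ext hij)
    refine ⟨hinj, ?_⟩
    have h2 : ∀ i ∈ (univ : Finset (ZMod k)), af G (v i).1 (v (i + 1)).1 = 1 + (h (v i).1 + h (v (i + 1)).1) := by
      intro i _
      have hne : (v i).1 ≠ (v (i + 1)).1 := fun h' => succ_ne hk i (hinj h').symm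
      have hx : ((v i).1, (v (i + 1)).1) ∉ X := by
        intro hx
        exact (v i).2 (mem_union_left _ (mem_image.mpr ⟨_, hx, rfl⟩))
      rw [hX] at hx
      simp only [exc, mem_filter, mem_univ, true_and, notMem_empty, not_false_eq_true, not_and, not_not] at hx
      rw [hx hne]; ring
    rw [Finset.sum_congr rfl h2, Finset.sum_add_distrib]
    have h3 : ∑ i, (h (v i).1 + h (v (i + 1)).1) = 0 := sum_switch h (fun i => (v i).1)
    rw [h3, add_zero, Finset.sum_const, Finset.card_univ, ZMod.card, nsmul_eq_mul, mul_one,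
      ZMod.natCast_eq_one_iff_odd]
    exact hodd
  · intro v _ w _ hvw
    ext i
    exact congrFun hvw i

end Structure

section Final

variable {k : ℕ} [NeZero k]

theorem quad {m s n : ℕ} (h1 : s ≤ m) (h2 : m + s + 1 ≤ n) : s * (n - 1 - s) ≤ m * (n - 1 - m) := by
  obtain ⟨d, rfl⟩ := Nat.exists_eq_add_of_le h1
  obtain ⟨e, rfl⟩ := Nat.exists_eq_add_of_le h2
  have e1 : s + d + s + 1 + e - 1 - s = s + d + e := by omega
  have e2 : s + d + s + 1 + e - 1 - (s + d) = s + e := by omega
  rw [e1, e2]
  nlinarith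

open scoped Classical in
theorem final_even (hk : 3 ≤ k) (n t M : ℕ) (G : SimpleGraph (Fin n)) (h : Fin n → ZMod 2)
    (hM : (exc G ∅ 0 h).card ≤ M) (hn : M + t + 3 + 2 * k ≤ n)
    (hlt : fr k G < fr k (star n (t + 1))) : WithinFlips t G := by
  by_cases ht : (excGraph G h).edgeFinset.card ≤ t
  · exact withinFlips_of G h t ht
  exfalso
  push Not at ht
  rw [exc_card] at hM
  set m := (excGraph G h).edgeFinset.card with hm
  have h1 := fr_lower hk (by rw [Fintype.card_fin]; omega) (excGraph G h)
    (by rw [Fintype.card_fin, ← hm]; omega) (by rw [Fintype.card_fin]; omega)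
  rw [← fr_excGraph hk, Fintype.card_fin, ← hm] at h1
  have h2 := fr_star_le hk n (t + 1) (by omega)
  have h3 : (t + 1) * (n - 1 - (t + 1)) ≤ m * (n - 1 - m) := quad ht (by omega)
  have h4 : k * (2 * (t + 1)) * ((n - 3).descFactorial (k - 3) * (n - 1 - (t + 1))) ≤
      k * (2 * m) * ((n - 3).descFactorial (k - 3) * (n - 1 - m)) := by
    calc k * (2 * (t + 1)) * ((n - 3).descFactorial (k - 3) * (n - 1 - (t + 1))) =
        (2 * k * (n - 3).descFactorial (k - 3)) * ((t + 1) * (n - 1 - (t + 1))) := by ring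
      _ ≤ (2 * k * (n - 3).descFactorial (k - 3)) * (m * (n - 1 - m)) := Nat.mul_le_mul_left _ h3
      _ = k * (2 * m) * ((n - 3).descFactorial (k - 3) * (n - 1 - m)) := by ring
  omega

theorem small_bad {b q n C : ℕ} (hn : 0 < n) (hq : n ≤ 4 * (q + 1 - (k - 2)))
    (h : b * q.descFactorial (k - 2) ≤ C * n ^ (k - 2)) : b ≤ 4 ^ (k - 2) * C := by
  have h1 : n ^ (k - 2) ≤ 4 ^ (k - 2) * q.descFactorial (k - 2) := by
    calc n ^ (k - 2) ≤ (4 * (q + 1 - (k - 2))) ^ (k - 2) := Nat.pow_le_pow_left hq _
      _ = 4 ^ (k - 2) * (q + 1 - (k - 2)) ^ (k - 2) := by rw [mul_pow]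
      _ ≤ 4 ^ (k - 2) * q.descFactorial (k - 2) := Nat.mul_le_mul_left _ (Nat.pow_sub_le_descFactorial _ _)
  have h2 : b * n ^ (k - 2) ≤ (4 ^ (k - 2) * C) * n ^ (k - 2) := by
    calc b * n ^ (k - 2) ≤ b * (4 ^ (k - 2) * q.descFactorial (k - 2)) := Nat.mul_le_mul_left _ h1
      _ = 4 ^ (k - 2) * (b * q.descFactorial (k - 2)) := by ring
      _ ≤ 4 ^ (k - 2) * (C * n ^ (k - 2)) := Nat.mul_le_mul_left _ h
      _ = _ := by ring
  exact Nat.le_of_mul_le_mul_right h2 (Nat.pow_pos hn)

open scoped Classical in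
theorem main (hk : 3 ≤ k) (t : ℕ) : ∃ n₀ : ℕ, ∀ n ≥ n₀, ∀ G : SimpleGraph (Fin n),
    fr k G < fr k (star n (t + 1)) → WithinFlips t G ∨ WithinFlips t Gᶜ := by
  set C := 2 * k * (t + 1) with hC
  set K := 4 ^ (k - 2) * C with hK
  set M := 2 * K + 2 * k * k with hM
  refine ⟨4 * K + 4 * M + 10 * k + t + 10 + 2 ^ k * C, ?_⟩
  intro n hn G hlt
  have hCpos : 0 < 2 ^ k * C := by positivity
  have hstar : fr k (star n (t + 1)) ≤ C * n ^ (k - 2) := by
    refine (fr_star_le hk n (t + 1) (by omega)).trans ?_
    have h1 : (n - 3).descFactorial (k - 3) ≤ n ^ (k - 3) :=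
      (Nat.descFactorial_le_pow _ _).trans (Nat.pow_le_pow_left (by omega) _)
    have h2 : n ^ (k - 2) = n ^ (k - 3) * n := by
      rw [← pow_succ]; congr 1; omega
    calc k * (2 * (t + 1)) * ((n - 3).descFactorial (k - 3) * (n - 1 - (t + 1)))
        ≤ k * (2 * (t + 1)) * (n ^ (k - 3) * n) := by
          apply Nat.mul_le_mul_left
          exact Nat.mul_le_mul h1 (by omega)
      _ = C * n ^ (k - 2) := by rw [h2, hC]; ring
  have hfr : fr k G ≤ C * n ^ (k - 2) := hlt.le.trans hstar
  set V1 : Finset (Fin n) := univ.filter fun x => x.val < n / 2 with hV1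
  set V2 : Finset (Fin n) := univ.filter fun x => ¬ x.val < n / 2 with hV2
  have hV1c : V1.card = n / 2 := by
    have : V1.map Fin.valEmbedding = Finset.range (n / 2) := by
      ext x
      simp only [hV1, mem_map, mem_filter, mem_univ, true_and, Fin.valEmbedding_apply, mem_range]
      constructor
      · rintro ⟨y, hy, rfl⟩; exact hy
      · intro hx
        exact ⟨⟨x, by omega⟩, hx, rfl⟩
    rw [← Finset.card_map, this]; simp
  have hV12 : V1.card + V2.card = n := by
    rw [hV1, hV2, Finset.card_filter_add_card_filter_not, Finset.card_univ, Fintype.card_fin]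
  obtain ⟨z1, hz1, hb1⟩ := exists_good_z hk G V1 (by omega)
  obtain ⟨z2, hz2, hb2⟩ := exists_good_z hk G V2 (by omega)
  have hK1 : (badPairs G z1).card ≤ K := small_bad (by omega) (by omega) (hb1.trans hfr)
  have hK2 : (badPairs G z2).card ≤ K := small_bad (by omega) (by omega) (hb2.trans hfr)
  obtain ⟨c, f, hf⟩ := structure_of_z hk G z1 (by rw [Fintype.card_fin]; omega)
  obtain ⟨d, g, hg⟩ := structure_of_z hk G z2 (by rw [Fintype.card_fin]; omega)
  have hJ : ∀ z : J k → Fin n, (univ.image z).card ≤ k := by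
    intro z
    refine (Finset.card_image_le).trans ?_
    rw [Finset.card_univ]
    calc Fintype.card (J k) ≤ Fintype.card (ZMod k) := Fintype.card_subtype_le _
      _ = k := ZMod.card k
  obtain ⟨h, hh⟩ := merge G (univ.image z1) (univ.image z2) (by
    rw [Finset.disjoint_left]
    intro x hx hx'
    rw [mem_image] at hx hx'
    obtain ⟨i, _, rfl⟩ := hx
    obtain ⟨j, _, hj⟩ := hx'
    have e1 := hz1 i
    have e2 := hz2 j
    rw [hj] at e2
    simp only [hV1, hV2, mem_filter, mem_univ, true_and] at e1 e2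
    exact e2 e1) c d f g K k (hf.trans hK1) (hg.trans hK2) (hJ _) (hJ _)
    (by rw [Fintype.card_fin]; omega)
  rw [← hM] at hh
  rcases z2_cases c with rfl | rfl
  · left
    exact final_even hk n t M G h hh (by omega) hlt
  · rcases Nat.even_or_odd k with hev | hodd
    · right
      rw [← fr_compl hk hev] at hlt
      exact final_even hk n t M Gᶜ h (by rw [exc_compl]; exact hh) (by omega) hlt
    · exfalso
      have h1 := odd_case hk hodd G h M hh
      rw [Fintype.card_fin] at h1
      have h2 : (n - 2 * M + 1 - k) ^ k ≤ fr k G := (Nat.pow_sub_le_descFactorial _ _).trans h1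
      have h3 : n ^ k ≤ 2 ^ k * fr k G := by
        calc n ^ k ≤ (2 * (n - 2 * M + 1 - k)) ^ k := Nat.pow_le_pow_left (by omega) _
          _ = 2 ^ k * (n - 2 * M + 1 - k) ^ k := by rw [mul_pow]
          _ ≤ _ := Nat.mul_le_mul_left _ h2
      have h4 : n ^ k = n ^ (k - 2) * n ^ 2 := by
        rw [← pow_add]; congr 1; omega
      have h5 : n ^ (k - 2) * n ^ 2 ≤ n ^ (k - 2) * (2 ^ k * C) := by
        rw [← h4]
        calc n ^ k ≤ 2 ^ k * fr k G := h3
          _ ≤ 2 ^ k * (C * n ^ (k - 2)) := Nat.mul_le_mul_left _ hfr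
          _ = _ := by ring
      have h6 : n ^ 2 ≤ 2 ^ k * C := Nat.le_of_mul_le_mul_left h5 (Nat.pow_pos (by omega))
      have h7 : 2 ^ k * C < n := by omega
      nlinarith

end Final

/-- **Theorem.** For every `k ≥ 3` and `t ≥ 0` there is `n₀` such that for all `n ≥ n₀` every graph `G`
on `n` vertices with fewer frustrated `k`-cycles than the `(t+1)`-star on `n` vertices is within `t`
flips of a complete bipartite graph, or its complement is. -/
theorem result : ∀ k : ℕ, 3 ≤ k → ∀ t : ℕ, ∃ n₀ : ℕ, ∀ n ≥ n₀, ∀ G : SimpleGraph (Fin n),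
    fr k G < fr k (star n (t + 1)) → WithinFlips t G ∨ WithinFlips t Gᶜ := by
  intro k hk t
  have : NeZero k := ⟨by omega⟩
  exact main hk t

end Pool.Agent.Results.MP_9feecb_co.FrustratedCycles
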